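import Mathlib

set_option autoImplicit false

/-!
# An inertially arbitrary sign pattern with a superpattern that is not inertially arbitrary

`S` is the direct sum of two copies of the spectrally arbitrary pattern `T₃` of order 3; it is
inertially arbitrary.  `S'` is obtained from `S` by adding two plus signs, which create one
positive cycle of length 6.  The characteristic polynomial of a realization of `S'` takes a
negative value at a real point, so it has a nonzero real root, and the inertia `(0, 0, 6)` is not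
attained.
-/

namespace Pool.Agent.Results.MP_557f7f_co.InertialSuperpattern

open Polynomial Matrix

/-- `A` is a realization of the sign pattern `S`. -/
def Realizes {n : ℕ} (A : Matrix (Fin n) (Fin n) ℝ) (S : Matrix (Fin n) (Fin n) SignType) : Prop :=
  ∀ i j, SignType.sign (A i j) = S i j

/-- The eigenvalues in `ℂ` of a real matrix, with algebraic multiplicity. -/
noncomputable def eigenvalues {n : ℕ} (A : Matrix (Fin n) (Fin n) ℝ) : Multiset ℂ :=
  (A.map (algebraMap ℝ ℂ)).charpoly.roots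

open Classical in
/-- The inertia `(n₊, n₋, n₀)` of a real matrix: the numbers of eigenvalues (with multiplicity)
with positive, negative and zero real part. -/
noncomputable def inertia {n : ℕ} (A : Matrix (Fin n) (Fin n) ℝ) : ℕ × ℕ × ℕ :=
  ((eigenvalues A).countP (fun z => 0 < z.re), (eigenvalues A).countP (fun z => z.re < 0),
    (eigenvalues A).countP (fun z => z.re = 0))

/-- The sign pattern `S` is inertially arbitrary: every triple of nonnegative integers with sum
`n` is the inertia of a realization of `S`. -/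
def InertiallyArbitrary {n : ℕ} (S : Matrix (Fin n) (Fin n) SignType) : Prop :=
  ∀ a b c : ℕ, a + b + c = n →
    ∃ A : Matrix (Fin n) (Fin n) ℝ, Realizes A S ∧ inertia A = (a, b, c)

/-- `S'` is a superpattern of `S`: it agrees with `S` at every nonzero entry of `S`. -/
def IsSuperpattern {n : ℕ} (S' S : Matrix (Fin n) (Fin n) SignType) : Prop :=
  ∀ i j, S i j ≠ 0 → S' i j = S i j

/-- The pattern `T₃ ⊕ T₃`. -/
def S : Matrix (Fin 6) (Fin 6) SignType :=
  !![1, 1, 0, 0, 0, 0;
     -1, 0, 1, 0, 0, 0;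
     0, -1, -1, 0, 0, 0;
     0, 0, 0, 1, 1, 0;
     0, 0, 0, -1, 0, 1;
     0, 0, 0, 0, -1, -1]

/-- The superpattern. -/
def S' : Matrix (Fin 6) (Fin 6) SignType :=
  !![1, 1, 0, 0, 0, 0;
     -1, 0, 1, 0, 0, 0;
     0, -1, -1, 1, 0, 0;
     0, 0, 0, 1, 1, 0;
     0, 0, 0, -1, 0, 1;
     1, 0, 0, 0, -1, -1]

/-- The pattern `T₃`. -/
def T3 : Matrix (Fin 3) (Fin 3) SignType := !![1, 1, 0; -1, 0, 1; 0, -1, -1]

theorem charpoly3 (a b c d f g : ℝ) :
    (!![a, b, 0; c, 0, d; 0, f, g] : Matrix (Fin 3) (Fin 3) ℝ).charpoly =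
      X ^ 3 - C (a + g) * X ^ 2 + C (a * g - b * c - d * f) * X + C (a * d * f + b * c * g) := by
  have h1 : charmatrix (!![a, b, 0; c, 0, d; 0, f, g] : Matrix (Fin 3) (Fin 3) ℝ) =
      !![X - C a, -C b, 0; -C c, X, -C d; 0, -C f, X - C g] := by
    ext i j : 2
    fin_cases i <;> fin_cases j <;> simp
  rw [Matrix.charpoly, h1, Matrix.det_fin_three]
  simp
  ring

theorem realize_T3 (u1 u2 u3 : ℝ) :
    ∃ A : Matrix (Fin 3) (Fin 3) ℝ, Realizes A T3 ∧
      A.charpoly = X ^ 3 + C u1 * X ^ 2 + C u2 * X + C u3 := by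
  set g : ℝ := |u1| + |u2| + |u3| + 1 with hg
  set a : ℝ := g - u1 with ha
  set N : ℝ := u2 + a * g with hN
  have n1 := abs_nonneg u1
  have n2 := abs_nonneg u2
  have n3 := abs_nonneg u3
  have l1 := le_abs_self u1
  have l2 := neg_abs_le u2
  have l3 := neg_abs_le u3
  have l3' := le_abs_self u3
  have hg1 : 1 + |u2| + |u3| ≤ g := by rw [hg]; linarith
  have ha1 : 1 + |u2| + |u3| ≤ a := by rw [ha, hg]; linarith
  have hag : (1 + |u2| + |u3|) * (1 + |u2| + |u3|) ≤ a * g :=
    mul_le_mul ha1 hg1 (by linarith) (by linarith)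
  have hN1 : 1 + |u3| ≤ N := by rw [hN]; nlinarith
  have haN : 1 + |u3| ≤ a * N := by nlinarith
  have hgN : 1 + |u3| ≤ g * N := by nlinarith
  have hsum : 0 < a + g := by linarith
  have hc : 0 < (u3 + a * N) / (a + g) := div_pos (by linarith) hsum
  have hf : 0 < (g * N - u3) / (a + g) := div_pos (by linarith) hsum
  refine ⟨!![a, 1, 0; -((u3 + a * N) / (a + g)), 0, 1; 0, -((g * N - u3) / (a + g)), -g], ?_, ?_⟩
  · have ha0 : 0 < a := by linarith
    have hg0 : 0 < g := by linarith
    intro i j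
    fin_cases i <;> fin_cases j
    · exact sign_pos ha0
    · exact sign_pos one_pos
    · exact sign_zero
    · exact sign_neg (neg_neg_of_pos hc)
    · exact sign_zero
    · exact sign_pos one_pos
    · exact sign_zero
    · exact sign_neg (neg_neg_of_pos hf)
    · exact sign_neg (neg_neg_of_pos hg0)
  · rw [charpoly3]
    have h1 : u1 = -(a + -g) := by rw [ha]; ring
    have h2 : u2 = a * -g - 1 * -((u3 + a * N) / (a + g)) - 1 * -((g * N - u3) / (a + g)) := by
      have : (u3 + a * N) / (a + g) + (g * N - u3) / (a + g) = N := by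
        rw [← add_div, show u3 + a * N + (g * N - u3) = N * (a + g) by ring]
        exact mul_div_cancel_right₀ _ hsum.ne'
      linarith
    have h3 : u3 = a * 1 * -((g * N - u3) / (a + g)) + 1 * -((u3 + a * N) / (a + g)) * -g := by
      have : g * ((u3 + a * N) / (a + g)) - a * ((g * N - u3) / (a + g)) = u3 := by
        rw [← mul_div_assoc, ← mul_div_assoc, ← sub_div,
          show g * (u3 + a * N) - a * (g * N - u3) = u3 * (a + g) by ring]
        exact mul_div_cancel_right₀ _ hsum.ne'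
      linarith
    conv_rhs => rw [h1, h2, h3]
    simp only [C_neg]
    ring_nf

theorem realize_S (r : Fin 6 → ℝ) :
    ∃ A : Matrix (Fin 6) (Fin 6) ℝ, Realizes A S ∧ A.charpoly = ∏ i, (X - C (r i)) := by
  have key : ∀ x y z : ℝ, ∃ A : Matrix (Fin 3) (Fin 3) ℝ, Realizes A T3 ∧
      A.charpoly = (X - C x) * (X - C y) * (X - C z) := by
    intro x y z
    obtain ⟨A, h1, h2⟩ := realize_T3 (-(x + y + z)) (x * y + x * z + y * z) (-(x * y * z))
    refine ⟨A, h1, ?_⟩
    rw [h2]
    simp only [C_neg, C_add, C_mul]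
    ring
  obtain ⟨A, hA1, hA2⟩ := key (r 0) (r 1) (r 2)
  obtain ⟨B, hB1, hB2⟩ := key (r 3) (r 4) (r 5)
  let e : Fin 3 ⊕ Fin 3 ≃ Fin 6 := finSumFinEquiv
  refine ⟨Matrix.reindex e e (Matrix.fromBlocks A 0 0 B), ?_, ?_⟩
  · intro i j
    obtain ⟨i, rfl⟩ := e.surjective i
    obtain ⟨j, rfl⟩ := e.surjective j
    rw [Matrix.reindex_apply, Matrix.submatrix_apply, Equiv.symm_apply_apply,
      Equiv.symm_apply_apply]
    rcases i with i | i <;> rcases j with j | j
    · rw [Matrix.fromBlocks_apply₁₁, hA1 i j]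
      fin_cases i <;> fin_cases j <;> rfl
    · rw [Matrix.fromBlocks_apply₁₂, Matrix.zero_apply, sign_zero]
      fin_cases i <;> fin_cases j <;> rfl
    · rw [Matrix.fromBlocks_apply₂₁, Matrix.zero_apply, sign_zero]
      fin_cases i <;> fin_cases j <;> rfl
    · rw [Matrix.fromBlocks_apply₂₂, hB1 i j]
      fin_cases i <;> fin_cases j <;> rfl
  · rw [Matrix.charpoly_reindex, Matrix.charpoly_fromBlocks_zero₁₂, hA2, hB2, Fin.prod_univ_six]
    ring

theorem eigenvalues_of_charpoly (A : Matrix (Fin 6) (Fin 6) ℝ) (r : Fin 6 → ℝ)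
    (h : A.charpoly = ∏ i, (X - C (r i))) :
    eigenvalues A = Finset.univ.val.map (fun i => ((r i : ℝ) : ℂ)) := by
  unfold eigenvalues
  rw [Matrix.charpoly_map, h, Polynomial.map_prod]
  have h1 : ∀ i, (X - C (r i) : ℝ[X]).map (algebraMap ℝ ℂ) = X - C ((r i : ℝ) : ℂ) := by
    intro i
    rw [Polynomial.map_sub, Polynomial.map_X, Polynomial.map_C]
    rfl
  simp only [h1]
  rw [← Polynomial.roots_multiset_prod_X_sub_C (Finset.univ.val.map (fun i => ((r i : ℝ) : ℂ))),
    Multiset.map_map]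
  rfl

theorem count6 : ∀ a b : Fin 7, a.val + b.val ≤ 6 →
    (Multiset.card (Multiset.filter (fun i : Fin 6 => i.val < a.val) Finset.univ.val),
      Multiset.card (Multiset.filter (fun i : Fin 6 => a.val ≤ i.val ∧ i.val < a.val + b.val)
        Finset.univ.val),
      Multiset.card (Multiset.filter (fun i : Fin 6 => a.val + b.val ≤ i.val) Finset.univ.val)) =
    (a.val, b.val, 6 - a.val - b.val) := by
  decide +kernel

theorem S_arbitrary : InertiallyArbitrary S := by
  classical
  intro a b c habc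
  set r : Fin 6 → ℝ := fun i => if i.val < a then 1 else if i.val < a + b then -1 else 0 with hr
  obtain ⟨A, hA1, hA2⟩ := realize_S r
  refine ⟨A, hA1, ?_⟩
  unfold inertia
  rw [eigenvalues_of_charpoly A r hA2]
  simp only [Multiset.countP_map, Complex.ofReal_re]
  have h1 : ∀ i : Fin 6, 0 < r i ↔ i.val < a := by
    intro i
    simp only [hr]
    split_ifs with h h'
    · simp [h]
    · simp [h]
    · simp [h]
  have h2 : ∀ i : Fin 6, r i < 0 ↔ a ≤ i.val ∧ i.val < a + b := by
    intro i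
    simp only [hr]
    split_ifs with h h'
    · simp only [not_lt.2 (zero_le_one), false_iff]; omega
    · simp only [neg_lt_zero, zero_lt_one, true_iff]; omega
    · simp only [lt_irrefl, false_iff]; omega
  have h3 : ∀ i : Fin 6, r i = 0 ↔ a + b ≤ i.val := by
    intro i
    simp only [hr]
    split_ifs with h h'
    · simp only [one_ne_zero, false_iff]; omega
    · simp only [neg_eq_zero, one_ne_zero, false_iff]; omega
    · simp only [true_iff]; omega
  simp only [h1, h2, h3]
  have ha : a < 7 := by omega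
  have hb : b < 7 := by omega
  have hc : c = 6 - a - b := by omega
  subst hc
  have hab : a + b ≤ 6 := by omega
  clear hA1 hA2 h1 h2 h3 hr r habc A
  exact count6 ⟨a, ha⟩ ⟨b, hb⟩ hab

theorem det6 (a b c d f g s a' b' c' d' f' g' t x : ℝ) :
    (!![x - a, -b, 0, 0, 0, 0; -c, x, -d, 0, 0, 0; 0, -f, x - g, -s, 0, 0;
      0, 0, 0, x - a', -b', 0; 0, 0, 0, -c', x, -d'; -t, 0, 0, 0, -f', x - g'] :
      Matrix (Fin 6) (Fin 6) ℝ).det =
    ((x - a) * (x * (x - g) - d * f) - b * c * (x - g)) *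
      ((x - a') * (x * (x - g') - d' * f') - b' * c' * (x - g')) - b * d * s * b' * d' * t := by
  simp [Matrix.det_succ_row_zero, Fin.sum_univ_succ, Fin.succAbove]
  ring

theorem eval_charpoly_S' (A : Matrix (Fin 6) (Fin 6) ℝ) (hA : Realizes A S') (x : ℝ) :
    A.charpoly.eval x =
      ((x - A 0 0) * (x * (x - A 2 2) - A 1 2 * A 2 1) - A 0 1 * A 1 0 * (x - A 2 2)) *
      ((x - A 3 3) * (x * (x - A 5 5) - A 4 5 * A 5 4) - A 3 4 * A 4 3 * (x - A 5 5)) -
      A 0 1 * A 1 2 * A 2 3 * A 3 4 * A 4 5 * A 5 0 := by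
  rw [Matrix.eval_charpoly, ← det6]
  congr 1
  have z : ∀ i j, S' i j = 0 → A i j = 0 := fun i j h => sign_eq_zero_iff.1 ((hA i j).trans h)
  ext i j
  rw [Matrix.sub_apply, Matrix.scalar_apply, Matrix.diagonal_apply]
  fin_cases i <;> fin_cases j <;> first
    | rfl
    | (simp; exact z _ _ rfl)
    | simp

theorem exists_neg (A : Matrix (Fin 6) (Fin 6) ℝ) (hA : Realizes A S') :
    ∃ x : ℝ, A.charpoly.eval x < 0 := by
  have p00 : 0 < A 0 0 := sign_eq_one_iff.1 (hA 0 0)
  have p01 : 0 < A 0 1 := sign_eq_one_iff.1 (hA 0 1)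
  have p10 : A 1 0 < 0 := sign_eq_neg_one_iff.1 (hA 1 0)
  have p12 : 0 < A 1 2 := sign_eq_one_iff.1 (hA 1 2)
  have p21 : A 2 1 < 0 := sign_eq_neg_one_iff.1 (hA 2 1)
  have p22 : A 2 2 < 0 := sign_eq_neg_one_iff.1 (hA 2 2)
  have p23 : 0 < A 2 3 := sign_eq_one_iff.1 (hA 2 3)
  have p34 : 0 < A 3 4 := sign_eq_one_iff.1 (hA 3 4)
  have p45 : 0 < A 4 5 := sign_eq_one_iff.1 (hA 4 5)
  have p50 : 0 < A 5 0 := sign_eq_one_iff.1 (hA 5 0)
  set q : ℝ → ℝ := fun x =>
    (x - A 0 0) * (x * (x - A 2 2) - A 1 2 * A 2 1) - A 0 1 * A 1 0 * (x - A 2 2) with hq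
  have hcont : Continuous q := by rw [hq]; fun_prop
  have h1 : q (A 0 0) ≥ 0 := by
    simp only [hq, sub_self, zero_mul, zero_sub]
    have : A 0 1 * A 1 0 < 0 := mul_neg_of_pos_of_neg p01 p10
    nlinarith
  have h2 : q (A 2 2) ≤ 0 := by
    simp only [hq, sub_self, mul_zero, zero_sub, sub_zero]
    have h3 : A 1 2 * A 2 1 < 0 := mul_neg_of_pos_of_neg p12 p21
    nlinarith
  obtain ⟨x, _, hx⟩ := intermediate_value_Icc (by linarith : A 2 2 ≤ A 0 0) hcont.continuousOn
    (show (0 : ℝ) ∈ Set.Icc (q (A 2 2)) (q (A 0 0)) from ⟨h2, h1⟩)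
  refine ⟨x, ?_⟩
  rw [eval_charpoly_S' A hA x]
  have hx' : (x - A 0 0) * (x * (x - A 2 2) - A 1 2 * A 2 1) - A 0 1 * A 1 0 * (x - A 2 2) = 0 := hx
  rw [hx', zero_mul, zero_sub, neg_lt_zero]
  positivity

/-- A real polynomial tending to `+∞` at `+∞` which is negative at `x` has a root `y > x`. -/
theorem root_right (P : ℝ[X]) (hP : P.Monic) (hd : 0 < P.natDegree) (x : ℝ) (hx : P.eval x < 0) :
    ∃ y, x < y ∧ P.eval y = 0 := by
  have ht := Polynomial.tendsto_atTop_of_leadingCoeff_nonneg P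
    (natDegree_pos_iff_degree_pos.1 hd) (by rw [hP.leadingCoeff]; exact zero_le_one)
  obtain ⟨z, hz1, hz2⟩ := ((ht.eventually_gt_atTop 0).and (Filter.eventually_gt_atTop x)).exists
  obtain ⟨y, hy1, hy2⟩ := intermediate_value_Ioo hz2.le P.continuous.continuousOn
    (show (0 : ℝ) ∈ Set.Ioo (P.eval x) (P.eval z) from ⟨hx, hz1⟩)
  exact ⟨y, hy1.1, hy2⟩

theorem S'_not_arbitrary : ¬ InertiallyArbitrary S' := by
  classical
  intro h
  obtain ⟨A, hA, hi⟩ := h 0 0 6 rfl
  unfold inertia at hi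
  rw [Prod.mk.injEq, Prod.mk.injEq] at hi
  obtain ⟨hi1, hi2, -⟩ := hi
  rw [Multiset.countP_eq_zero] at hi1 hi2
  -- every real root of the characteristic polynomial is zero
  have hroot : ∀ y : ℝ, A.charpoly.eval y = 0 → y = 0 := by
    intro y hy
    have hmem : ((y : ℝ) : ℂ) ∈ eigenvalues A := by
      unfold eigenvalues
      rw [Matrix.charpoly_map, mem_roots_map A.charpoly_monic.ne_zero]
      have h2 := Polynomial.eval₂_at_apply (p := A.charpoly) (algebraMap ℝ ℂ) y
      rw [hy, map_zero] at h2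
      exact h2
    have a1 := hi1 _ hmem
    have a2 := hi2 _ hmem
    rw [Complex.ofReal_re] at a1 a2
    exact le_antisymm (not_lt.1 a1) (not_lt.1 a2)
  obtain ⟨x, hx⟩ := exists_neg A hA
  have hdeg : A.charpoly.natDegree = 6 := by
    rw [Matrix.charpoly_natDegree_eq_dim, Fintype.card_fin]
  obtain ⟨y, hy1, hy2⟩ := root_right A.charpoly A.charpoly_monic (by omega) x hx
  have hcomp : (A.charpoly.comp (-X)).Monic := by
    have h1 : (A.charpoly.comp (-X)).leadingCoeff = 1 := by
      rw [leadingCoeff_comp (by rw [natDegree_neg, natDegree_X]; exact one_ne_zero),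
        A.charpoly_monic.leadingCoeff, hdeg, leadingCoeff_neg, leadingCoeff_X]
      norm_num
    exact h1
  obtain ⟨w, hw1, hw2⟩ := root_right (A.charpoly.comp (-X)) hcomp
    (by rw [natDegree_comp, natDegree_neg, natDegree_X, hdeg]; norm_num) (-x)
    (by rw [eval_comp]; simpa using hx)
  have hw3 : A.charpoly.eval (-w) = 0 := by
    rw [eval_comp] at hw2
    simpa using hw2
  have e1 := hroot y hy2
  have e2 := hroot (-w) hw3
  linarith

theorem agree : ∀ i j, S i j = 0 ∨ S' i j = S i j := by decide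

theorem isSuperpattern : IsSuperpattern S' S := fun i j h => (agree i j).resolve_left h

/-- There is an inertially arbitrary sign pattern with a superpattern that is not inertially
arbitrary. -/
theorem result : ∃ (n : ℕ) (P Q : Matrix (Fin n) (Fin n) SignType),
    InertiallyArbitrary P ∧ IsSuperpattern Q P ∧ ¬ InertiallyArbitrary Q := by
  exact ⟨6, S, S', S_arbitrary, isSuperpattern, S'_not_arbitrary⟩

end Pool.Agent.Results.MP_557f7f_co.InertialSuperpattern
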