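import Mathlib

set_option autoImplicit false

/-!
# A spectrally arbitrary sign pattern with a superpattern that is not spectrally arbitrary

`S` is the direct sum of the order 4 pattern `M₄` and the order 2 pattern `T₂`; it is spectrally
arbitrary.  `S'` is obtained from `S` by replacing the zero entry in position `(3, 1)` by a minus
sign; no realization of `S'` is nilpotent.
-/

namespace Pool.Agent.Results.MP_557f7f_co.SpectralSuperpattern

open Polynomial Matrix

/-- `A` is a realization of the sign pattern `S`. -/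
def Realizes {n : ℕ} (A : Matrix (Fin n) (Fin n) ℝ) (S : Matrix (Fin n) (Fin n) SignType) : Prop :=
  ∀ i j, SignType.sign (A i j) = S i j

/-- The sign pattern `S` is spectrally arbitrary: every monic real polynomial of degree `n` is the
characteristic polynomial of a realization of `S`. -/
def SpectrallyArbitrary {n : ℕ} (S : Matrix (Fin n) (Fin n) SignType) : Prop :=
  ∀ p : ℝ[X], p.Monic → p.natDegree = n →
    ∃ A : Matrix (Fin n) (Fin n) ℝ, Realizes A S ∧ A.charpoly = p

/-- `S'` is a superpattern of `S`: it agrees with `S` at every nonzero entry of `S`. -/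
def IsSuperpattern {n : ℕ} (S' S : Matrix (Fin n) (Fin n) SignType) : Prop :=
  ∀ i j, S i j ≠ 0 → S' i j = S i j

/-- The pattern `M₄ ⊕ T₂`. -/
def S : Matrix (Fin 6) (Fin 6) SignType :=
  !![1, 1, -1, 0, 0, 0;
     -1, -1, 1, 0, 0, 0;
     0, 0, 0, -1, 0, 0;
     1, 1, 0, 0, 0, 0;
     0, 0, 0, 0, 1, 1;
     0, 0, 0, 0, -1, -1]

/-- The superpattern. -/
def S' : Matrix (Fin 6) (Fin 6) SignType :=
  !![1, 1, -1, 0, 0, 0;
     -1, -1, 1, 0, 0, 0;
     -1, 0, 0, -1, 0, 0;
     1, 1, 0, 0, 0, 0;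
     0, 0, 0, 0, 1, 1;
     0, 0, 0, 0, -1, -1]

theorem charpoly4 (a b c d e f g h k m : ℝ) :
    (!![a, b, c, 0; d, e, f, 0; m, 0, 0, g; h, k, 0, 0] : Matrix (Fin 4) (Fin 4) ℝ).charpoly =
      X ^ 4 - C (a + e) * X ^ 3 + C (a * e - b * d - c * m) * X ^ 2
        - C (m * (b * f - c * e) + c * g * h + f * g * k) * X
        + C (g * (a * f * k - b * f * h + c * (e * h - d * k))) := by
  have h1 : charmatrix (!![a, b, c, 0; d, e, f, 0; m, 0, 0, g; h, k, 0, 0] :
      Matrix (Fin 4) (Fin 4) ℝ) =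
      !![X - C a, -C b, -C c, 0; -C d, X - C e, -C f, 0; -C m, 0, X, -C g;
        -C h, -C k, 0, X] := by
    ext i j : 2
    fin_cases i <;> fin_cases j <;> simp
  rw [Matrix.charpoly, h1]
  simp [Matrix.det_succ_row_zero, Fin.sum_univ_succ, Fin.succAbove]
  ring

/-! ### Which polynomials of degree 4 are realized by `M₄` -/

theorem real4 (E1 E2 E3 E4 : ℝ) (hE : E3 ≠ 0 ∨ 0 < E4) :
    ∃ a b d e h k : ℝ, 0 < a ∧ 0 < b ∧ 0 < d ∧ 0 < e ∧ 0 < h ∧ 0 < k ∧
      a - e = E1 ∧ b * d - a * e = E2 ∧ h - k = E3 ∧ b * h + d * k - a * k - e * h = E4 := by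
  set t : ℝ := |E1| + |E2| + |E4| / |E3| + 2 with ht
  have h1 := abs_nonneg E1
  have h2 := abs_nonneg E2
  have h3 : 0 ≤ |E4| / |E3| := div_nonneg (abs_nonneg _) (abs_nonneg _)
  have ht2 : 2 ≤ t := by rw [ht]; linarith
  have htE1 : |E2| + 2 ≤ t - |E1| := by rw [ht]; linarith
  have a1 := neg_abs_le E1
  have a1' := le_abs_self E1
  have a2 := neg_abs_le E2
  have a2' := le_abs_self E2
  have key : ∀ s r : ℝ, 2 ≤ s → |E2| + 2 ≤ r → 0 < s * r + E2 := by
    intro s r hs hr
    have : 2 * (|E2| + 2) ≤ s * r := by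
      apply mul_le_mul hs hr (by linarith) (by linarith)
    linarith
  rcases lt_or_ge E3 0 with hneg | hpos
  · have h4 : 0 < -E3 * t + E4 := by
      have h5 : -E3 * (|E4| / |E3|) = |E4| := by
        rw [abs_of_neg hneg]
        exact mul_div_cancel₀ _ (neg_ne_zero.2 hneg.ne)
      have h6 : 0 < -E3 := by linarith
      have h7 : -E3 * (|E4| / |E3|) < -E3 * t := by
        apply mul_lt_mul_of_pos_left _ h6
        rw [ht]; linarith
      have := neg_abs_le E4
      linarith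
    refine ⟨E2 - E1 * t + t * (t + 1), E2 - E1 * (t + 1) + (t + 1) ^ 2, E2 - E1 * t + t ^ 2,
      E2 - E1 * (t + 1) + t * (t + 1), E4 - E3 * t, E4 - E3 * (t + 1), ?_, ?_, ?_, ?_, ?_, ?_,
      by ring, by ring, by ring, by ring⟩
    · have := key t (t + 1 - E1) ht2 (by linarith)
      nlinarith
    · have := key (t + 1) (t + 1 - E1) (by linarith) (by linarith)
      nlinarith
    · have := key t (t - E1) ht2 (by linarith)
      nlinarith
    · have := key (t + 1) (t - E1) (by linarith) (by linarith)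
      nlinarith
    · linarith
    · linarith
  · have h4 : 0 < E3 * t + E4 := by
      rcases hpos.eq_or_lt with h0 | h0
      · rcases hE with h | h
        · exact absurd h0.symm h
        · rw [← h0]; linarith
      · have h5 : E3 * (|E4| / |E3|) = |E4| := by
          rw [abs_of_pos h0]
          field_simp
        have h7 : E3 * (|E4| / |E3|) < E3 * t := by
          apply mul_lt_mul_of_pos_left _ h0
          rw [ht]; linarith
        have := neg_abs_le E4
        linarith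
    refine ⟨E2 + E1 * (t + 1) + t * (t + 1), E2 + E1 * t + t ^ 2, E2 + E1 * (t + 1) + (t + 1) ^ 2,
      E2 + E1 * t + t * (t + 1), E4 + E3 * (t + 1), E4 + E3 * t, ?_, ?_, ?_, ?_, ?_, ?_,
      by ring, by ring, by ring, by ring⟩
    · have := key (t + 1) (t + E1) (by linarith) (by linarith)
      nlinarith
    · have := key t (t + E1) (by linarith) (by linarith)
      nlinarith
    · have := key (t + 1) (t + 1 + E1) (by linarith) (by linarith)
      nlinarith
    · have := key t (t + 1 + E1) (by linarith) (by linarith)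
      nlinarith
    · linarith
    · linarith

/-- The pattern `M₄`. -/
def M4 : Matrix (Fin 4) (Fin 4) SignType :=
  !![1, 1, -1, 0; -1, -1, 1, 0; 0, 0, 0, -1; 1, 1, 0, 0]

/-- The pattern `T₂`. -/
def T2 : Matrix (Fin 2) (Fin 2) SignType := !![1, 1; -1, -1]

theorem realize_M4 (u1 u2 u3 u4 : ℝ) (h : u3 ≠ 0 ∨ 0 < u4 ∨ (u1 = 0 ∧ u2 = 0 ∧ u3 = 0 ∧ u4 = 0)) :
    ∃ A : Matrix (Fin 4) (Fin 4) ℝ, Realizes A M4 ∧
      A.charpoly = X ^ 4 + C u1 * X ^ 3 + C u2 * X ^ 2 + C u3 * X + C u4 := by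
  have key : ∃ a b d e h k : ℝ, 0 < a ∧ 0 < b ∧ 0 < d ∧ 0 < e ∧ 0 < h ∧ 0 < k ∧
      a - e = -u1 ∧ b * d - a * e = u2 ∧ h - k = -u3 ∧ b * h + d * k - a * k - e * h = u4 := by
    rcases h with h | h | ⟨rfl, rfl, rfl, rfl⟩
    · exact real4 (-u1) u2 (-u3) u4 (Or.inl (neg_ne_zero.2 h))
    · exact real4 (-u1) u2 (-u3) u4 (Or.inr h)
    · exact ⟨1, 1, 1, 1, 1, 1, one_pos, one_pos, one_pos, one_pos, one_pos, one_pos, by norm_num,
        by norm_num, by norm_num, by norm_num⟩
  obtain ⟨a, b, d, e, h, k, ha, hb, hd, he, hh, hk, e1, e2, e3, e4⟩ := key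
  refine ⟨!![a, b, -1, 0; -d, -e, 1, 0; 0, 0, 0, -1; h, k, 0, 0], ?_, ?_⟩
  · intro i j
    fin_cases i <;> fin_cases j <;>
      simp [M4, ha, hb, hd, he, hh, hk]
  · rw [charpoly4]
    have h1 : u1 = -(a + -e) := by linarith
    have h2 : u2 = a * -e - b * -d - -1 * 0 := by linarith
    have h3 : u3 = -(0 * (b * 1 - -1 * -e) + -1 * -1 * h + 1 * -1 * k) := by linarith
    have h4 : u4 = -1 * (a * 1 * k - b * 1 * h + -1 * (-e * h - -d * k)) := by linarith
    rw [h1, h2, h3, h4]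
    simp only [C_neg]
    ring

theorem realize_T2 (b c : ℝ) :
    ∃ A : Matrix (Fin 2) (Fin 2) ℝ, Realizes A T2 ∧ A.charpoly = X ^ 2 + C b * X + C c := by
  set d : ℝ := |b| + |c| + 1 with hdd
  have hb := abs_nonneg b
  have hc := abs_nonneg c
  have hb1 := neg_abs_le b
  have hb2 := le_abs_self b
  have hc1 := neg_abs_le c
  have hd1 : 1 ≤ d := by rw [hdd]; linarith
  have hdb : 1 ≤ d - b := by rw [hdd]; linarith
  have hpos : 0 < d * (d - b) + c := by
    have h1 : d * 1 ≤ d * (d - b) := by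
      apply mul_le_mul_of_nonneg_left hdb; linarith
    rw [hdd] at h1 ⊢
    nlinarith
  refine ⟨!![d - b, 1; -(d * (d - b) + c), -d], ?_, ?_⟩
  · intro i j
    fin_cases i <;> fin_cases j
    · show SignType.sign (d - b) = 1
      exact sign_pos (by linarith)
    · show SignType.sign (1 : ℝ) = 1
      exact sign_pos one_pos
    · show SignType.sign (-(d * (d - b) + c)) = -1
      exact sign_neg (by linarith)
    · show SignType.sign (-d) = -1
      exact sign_neg (by linarith)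
  · rw [Matrix.charpoly_fin_two]
    simp [Matrix.trace_fin_two, Matrix.det_fin_two]
    ring

/-! ### Factorization of polynomials of degree 6 -/

theorem exists_quadratic_factor (p : ℝ[X]) (hp : p.Monic) (n : ℕ) (hn : p.natDegree = n + 2) :
    ∃ q r : ℝ[X], q.Monic ∧ r.Monic ∧ q.natDegree = n ∧ r.natDegree = 2 ∧ p = q * r := by
  have key : ∃ r : ℝ[X], r.Monic ∧ r.natDegree = 2 ∧ r ∣ p := by
    have hquad : ∀ s : ℝ[X], s ∣ p → ∀ z : ℂ, aeval z s = 0 → z.im ≠ 0 →
        ∃ r : ℝ[X], r.Monic ∧ r.natDegree = 2 ∧ r ∣ p := by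
      intro s hs z hz him
      have h := s.quadratic_dvd_of_aeval_eq_zero_im_ne_zero hz him
      refine ⟨X ^ 2 - C (2 * z.re) * X + C (‖z‖ ^ 2), ?_, ?_, h.trans hs⟩
      · monicity!
      · compute_degree!
    have hroot : ∀ s : ℝ[X], s.natDegree ≠ 0 → ∃ z : ℂ, aeval z s = 0 := by
      intro s hs
      have h1 : (s.map (algebraMap ℝ ℂ)).degree ≠ 0 := by
        rw [Polynomial.degree_map]
        intro h
        exact hs (Polynomial.natDegree_eq_of_degree_eq_some h)
      obtain ⟨z, hz⟩ := IsAlgClosed.exists_root _ h1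
      exact ⟨z, by rwa [IsRoot.def, eval_map_algebraMap] at hz⟩
    obtain ⟨z, hz⟩ := hroot p (by omega)
    by_cases him : z.im ≠ 0
    · exact hquad p dvd_rfl z hz him
    push Not at him
    have hzr : z = ((z.re : ℝ) : ℂ) := by
      apply Complex.ext <;> simp [him]
    have hpr : p.IsRoot z.re := by
      rw [hzr] at hz
      have h2 : ((p.eval z.re : ℝ) : ℂ) = 0 := by
        rw [← hz]
        exact (Polynomial.aeval_algebraMap_apply_eq_algebraMap_eval z.re p).symm
      exact_mod_cast h2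
    obtain ⟨s, hs⟩ := dvd_iff_isRoot.2 hpr
    have hs0 : s ≠ 0 := by
      rintro rfl
      rw [mul_zero] at hs
      exact hp.ne_zero hs
    have hsd : s.natDegree = n + 1 := by
      have := congrArg natDegree hs
      rw [natDegree_mul (X_sub_C_ne_zero _) hs0, natDegree_X_sub_C, hn] at this
      omega
    obtain ⟨w, hw⟩ := hroot s (by omega)
    by_cases him2 : w.im ≠ 0
    · exact hquad s ⟨X - C z.re, by rw [hs]; ring⟩ w hw him2
    push Not at him2
    have hwr : w = ((w.re : ℝ) : ℂ) := by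
      apply Complex.ext <;> simp [him2]
    have hsr : s.IsRoot w.re := by
      rw [hwr] at hw
      have h2 : ((s.eval w.re : ℝ) : ℂ) = 0 := by
        rw [← hw]
        exact (Polynomial.aeval_algebraMap_apply_eq_algebraMap_eval w.re s).symm
      exact_mod_cast h2
    obtain ⟨t, ht⟩ := dvd_iff_isRoot.2 hsr
    refine ⟨(X - C z.re) * (X - C w.re), (monic_X_sub_C _).mul (monic_X_sub_C _), ?_, ?_⟩
    · rw [natDegree_mul (X_sub_C_ne_zero _) (X_sub_C_ne_zero _), natDegree_X_sub_C,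
        natDegree_X_sub_C]
    · exact ⟨t, by rw [hs, ht]; ring⟩
  obtain ⟨r, hr1, hr2, q, hq⟩ := key
  have hqm : q.Monic := by
    rw [hq] at hp
    exact hr1.of_mul_monic_left hp
  refine ⟨q, r, hqm, hr1, ?_, hr2, by rw [hq]; ring⟩
  have := congrArg natDegree hq
  rw [hr1.natDegree_mul hqm, hn, hr2] at this
  omega

theorem quad_form (r : ℝ[X]) (hr : r.Monic) (hd : r.natDegree = 2) :
    r = X ^ 2 + C (r.coeff 1) * X + C (r.coeff 0) := by
  have h2 : r.coeff 2 = 1 := by rw [← hd]; exact hr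
  conv_lhs => rw [r.as_sum_range_C_mul_X_pow, hd]
  simp only [Finset.sum_range_succ, Finset.sum_range_zero, h2]
  simp
  ring

theorem exists_three (p : ℝ[X]) (hp : p.Monic) (hn : p.natDegree = 6) :
    ∃ b1 c1 b2 c2 b3 c3 : ℝ, p = (X ^ 2 + C b1 * X + C c1) * (X ^ 2 + C b2 * X + C c2) *
      (X ^ 2 + C b3 * X + C c3) := by
  obtain ⟨q, r, hq, hr, hqd, hrd, hpq⟩ := exists_quadratic_factor p hp 4 hn
  obtain ⟨q', r', hq', hr', hqd', hrd', hpq'⟩ := exists_quadratic_factor q hq 2 hqd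
  refine ⟨q'.coeff 1, q'.coeff 0, r'.coeff 1, r'.coeff 0, r.coeff 1, r.coeff 0, ?_⟩
  rw [← quad_form q' hq' hqd', ← quad_form r' hr' hrd', ← quad_form r hr hrd, ← hpq', hpq]

/-- `p` has a factor of degree 4 that is realized by `M₄`. -/
def Good (p : ℝ[X]) : Prop :=
  ∃ u1 u2 u3 u4 b c : ℝ, (u3 ≠ 0 ∨ 0 < u4 ∨ (u1 = 0 ∧ u2 = 0 ∧ u3 = 0 ∧ u4 = 0)) ∧
    p = (X ^ 4 + C u1 * X ^ 3 + C u2 * X ^ 2 + C u3 * X + C u4) * (X ^ 2 + C b * X + C c)

theorem good_pair (b1 c1 b2 c2 b3 c3 : ℝ) (h : b1 * c2 + b2 * c1 ≠ 0 ∨ 0 < c1 * c2) :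
    Good ((X ^ 2 + C b1 * X + C c1) * (X ^ 2 + C b2 * X + C c2) * (X ^ 2 + C b3 * X + C c3)) := by
  refine ⟨b1 + b2, c1 + c2 + b1 * b2, b1 * c2 + b2 * c1, c1 * c2, b3, c3, ?_, ?_⟩
  · rcases h with h | h
    · exact Or.inl h
    · exact Or.inr (Or.inl h)
  · simp only [C_add, C_mul]
    ring

theorem good_zero (b1 b2 c2 b3 c3 : ℝ) :
    Good ((X ^ 2 + C b1 * X + C 0) * (X ^ 2 + C b2 * X + C c2) * (X ^ 2 + C b3 * X + C c3)) := by
  by_cases h12 : b1 * c2 = 0
  swap
  · exact good_pair b1 0 b2 c2 b3 c3 (Or.inl (by simpa using h12))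
  by_cases h13 : b1 * c3 = 0
  swap
  · have h := good_pair b1 0 b3 c3 b2 c2 (Or.inl (by simpa using h13))
    have e : (X ^ 2 + C b1 * X + C 0) * (X ^ 2 + C b2 * X + C c2) * (X ^ 2 + C b3 * X + C c3) =
      (X ^ 2 + C b1 * X + C 0) * (X ^ 2 + C b3 * X + C c3) * (X ^ 2 + C b2 * X + C c2) := by ring
    rw [e]; exact h
  by_cases h23 : b2 * c3 + b3 * c2 ≠ 0 ∨ 0 < c2 * c3
  · have h := good_pair b2 c2 b3 c3 b1 0 h23
    have e : (X ^ 2 + C b1 * X + C 0) * (X ^ 2 + C b2 * X + C c2) * (X ^ 2 + C b3 * X + C c3) =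
      (X ^ 2 + C b2 * X + C c2) * (X ^ 2 + C b3 * X + C c3) * (X ^ 2 + C b1 * X + C 0) := by ring
    rw [e]; exact h
  push Not at h23
  obtain ⟨h23, h23'⟩ := h23
  by_cases hc2 : c2 = 0
  · subst hc2
    by_cases hc3 : c3 = 0
    · subst hc3
      by_cases hb : b1 * b2 * b3 = 0
      · have hcase : b1 = 0 ∨ b2 = 0 ∨ b3 = 0 := by
          rcases mul_eq_zero.1 hb with h | h
          · rcases mul_eq_zero.1 h with h | h
            · exact Or.inl h
            · exact Or.inr (Or.inl h)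
          · exact Or.inr (Or.inr h)
        rcases hcase with rfl | rfl | rfl
        · refine ⟨0, 0, 0, 0, b2 + b3, b2 * b3, Or.inr (Or.inr ⟨rfl, rfl, rfl, rfl⟩), ?_⟩
          simp only [C_add, C_mul, C_0]; ring
        · refine ⟨0, 0, 0, 0, b1 + b3, b1 * b3, Or.inr (Or.inr ⟨rfl, rfl, rfl, rfl⟩), ?_⟩
          simp only [C_add, C_mul, C_0]; ring
        · refine ⟨0, 0, 0, 0, b1 + b2, b1 * b2, Or.inr (Or.inr ⟨rfl, rfl, rfl, rfl⟩), ?_⟩
          simp only [C_add, C_mul, C_0]; ring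
      · refine ⟨b1 + b2 + b3, b1 * b2 + b1 * b3 + b2 * b3, b1 * b2 * b3, 0, 0, 0, Or.inl hb, ?_⟩
        simp only [C_add, C_mul, C_0]; ring
    · have hb1 : b1 = 0 := by
        rcases mul_eq_zero.1 h13 with h | h
        · exact h
        · exact absurd h hc3
      have hb2 : b2 = 0 := by
        have : b2 * c3 = 0 := by linarith
        rcases mul_eq_zero.1 this with h | h
        · exact h
        · exact absurd h hc3
      subst hb1; subst hb2
      refine ⟨0, 0, 0, 0, b3, c3, Or.inr (Or.inr ⟨rfl, rfl, rfl, rfl⟩), ?_⟩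
      simp only [C_0]; ring
  · have hb1 : b1 = 0 := by
      rcases mul_eq_zero.1 h12 with h | h
      · exact h
      · exact absurd h hc2
    subst hb1
    by_cases hc3 : c3 = 0
    · subst hc3
      have hb3 : b3 = 0 := by
        have : b3 * c2 = 0 := by linarith
        rcases mul_eq_zero.1 this with h | h
        · exact h
        · exact absurd h hc2
      subst hb3
      refine ⟨0, 0, 0, 0, b2, c2, Or.inr (Or.inr ⟨rfl, rfl, rfl, rfl⟩), ?_⟩
      simp only [C_0]; ring
    · -- `c2 * c3 < 0`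
      have hlt : c2 * c3 < 0 := lt_of_le_of_ne h23' (mul_ne_zero hc2 hc3)
      have split : ∀ b c : ℝ, c < 0 → ∃ r s : ℝ, s ≠ 0 ∧
          (X ^ 2 + C b * X + C c : ℝ[X]) = (X - C r) * (X - C s) := by
        intro b c hc
        have hdisc : 0 ≤ b ^ 2 - 4 * c := by nlinarith [sq_nonneg b]
        have hsq := Real.sq_sqrt hdisc
        set D := Real.sqrt (b ^ 2 - 4 * c) with hD
        refine ⟨(-b + D) / 2, (-b - D) / 2, ?_, ?_⟩
        · intro h0
          have h1 : D = -b := by linarith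
          rw [h1] at hsq
          nlinarith
        · have h1 : b = -((-b + D) / 2 + (-b - D) / 2) := by ring
          have h2 : c = (-b + D) / 2 * ((-b - D) / 2) := by linarith
          generalize (-b + D) / 2 = r at h1 h2
          generalize (-b - D) / 2 = s at h1 h2
          rw [h1, h2]
          simp only [C_neg, C_add, C_mul]
          ring
      rcases lt_or_ge c2 0 with hneg | hpos
      · obtain ⟨r, s, hs, he⟩ := split b2 c2 hneg
        rw [he]
        refine ⟨b3 - s, c3 - s * b3, -(s * c3), 0, -r, 0,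
          Or.inl (neg_ne_zero.2 (mul_ne_zero hs hc3)), ?_⟩
        simp only [C_neg, C_sub, C_mul, C_0]; ring
      · have hc3neg : c3 < 0 := by
          by_contra hcon
          push Not at hcon
          have := mul_nonneg hpos hcon
          linarith
        obtain ⟨r, s, hs, he⟩ := split b3 c3 hc3neg
        rw [he]
        refine ⟨b2 - s, c2 - s * b2, -(s * c2), 0, -r, 0,
          Or.inl (neg_ne_zero.2 (mul_ne_zero hs hc2)), ?_⟩
        simp only [C_neg, C_sub, C_mul, C_0]; ring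

theorem good_all (p : ℝ[X]) (hp : p.Monic) (hn : p.natDegree = 6) : Good p := by
  obtain ⟨b1, c1, b2, c2, b3, c3, rfl⟩ := exists_three p hp hn
  by_cases h12 : 0 < c1 * c2
  · exact good_pair _ _ _ _ _ _ (Or.inr h12)
  by_cases h13 : 0 < c1 * c3
  · have h := good_pair b1 c1 b3 c3 b2 c2 (Or.inr h13)
    have e : (X ^ 2 + C b1 * X + C c1) * (X ^ 2 + C b2 * X + C c2) * (X ^ 2 + C b3 * X + C c3) =
      (X ^ 2 + C b1 * X + C c1) * (X ^ 2 + C b3 * X + C c3) * (X ^ 2 + C b2 * X + C c2) := by ring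
    rw [e]; exact h
  by_cases h23 : 0 < c2 * c3
  · have h := good_pair b2 c2 b3 c3 b1 c1 (Or.inr h23)
    have e : (X ^ 2 + C b1 * X + C c1) * (X ^ 2 + C b2 * X + C c2) * (X ^ 2 + C b3 * X + C c3) =
      (X ^ 2 + C b2 * X + C c2) * (X ^ 2 + C b3 * X + C c3) * (X ^ 2 + C b1 * X + C c1) := by ring
    rw [e]; exact h
  push Not at h12 h13 h23
  by_cases h1 : c1 = 0
  · subst h1; exact good_zero _ _ _ _ _
  by_cases h2 : c2 = 0
  · subst h2
    have h := good_zero b2 b1 c1 b3 c3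
    have e : (X ^ 2 + C b1 * X + C c1) * (X ^ 2 + C b2 * X + C 0) * (X ^ 2 + C b3 * X + C c3) =
      (X ^ 2 + C b2 * X + C 0) * (X ^ 2 + C b1 * X + C c1) * (X ^ 2 + C b3 * X + C c3) := by ring
    rw [e]; exact h
  by_cases h3 : c3 = 0
  · subst h3
    have h := good_zero b3 b1 c1 b2 c2
    have e : (X ^ 2 + C b1 * X + C c1) * (X ^ 2 + C b2 * X + C c2) * (X ^ 2 + C b3 * X + C 0) =
      (X ^ 2 + C b3 * X + C 0) * (X ^ 2 + C b1 * X + C c1) * (X ^ 2 + C b2 * X + C c2) := by ring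
    rw [e]; exact h
  exfalso
  have l12 : c1 * c2 < 0 := lt_of_le_of_ne h12 (mul_ne_zero h1 h2)
  have l13 : c1 * c3 < 0 := lt_of_le_of_ne h13 (mul_ne_zero h1 h3)
  have l23 : c2 * c3 < 0 := lt_of_le_of_ne h23 (mul_ne_zero h2 h3)
  have h4 : 0 < (c1 * c2) * (c1 * c3) := mul_pos_of_neg_of_neg l12 l13
  have h5 : 0 < c1 ^ 2 := by positivity
  have h6 : (c1 * c2) * (c1 * c3) = c1 ^ 2 * (c2 * c3) := by ring
  rw [h6] at h4
  have := (mul_pos_iff_of_pos_left h5).1 h4
  linarith

theorem S_arbitrary : SpectrallyArbitrary S := by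
  intro p hp hn
  obtain ⟨u1, u2, u3, u4, b, c, hu, rfl⟩ := good_all p hp hn
  obtain ⟨A, hA1, hA2⟩ := realize_M4 u1 u2 u3 u4 hu
  obtain ⟨B, hB1, hB2⟩ := realize_T2 b c
  let e : Fin 4 ⊕ Fin 2 ≃ Fin 6 := finSumFinEquiv
  refine ⟨Matrix.reindex e e (Matrix.fromBlocks A 0 0 B), ?_, ?_⟩
  · intro i j
    obtain ⟨i, rfl⟩ := e.surjective i
    obtain ⟨j, rfl⟩ := e.surjective j
    rw [Matrix.reindex_apply, Matrix.submatrix_apply, Equiv.symm_apply_apply,
      Equiv.symm_apply_apply]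
    rcases i with i | i <;> rcases j with j | j
    · rw [Matrix.fromBlocks_apply₁₁, hA1 i j]
      fin_cases i <;> fin_cases j <;> rfl
    · rw [Matrix.fromBlocks_apply₁₂, Matrix.zero_apply, sign_zero]
      fin_cases i <;> fin_cases j <;> rfl
    · rw [Matrix.fromBlocks_apply₂₁, Matrix.zero_apply, sign_zero]
      fin_cases i <;> fin_cases j <;> rfl
    · rw [Matrix.fromBlocks_apply₂₂, hB1 i j]
      fin_cases i <;> fin_cases j <;> rfl
  · rw [Matrix.charpoly_reindex, Matrix.charpoly_fromBlocks_zero₁₂, hA2, hB2]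

/-! ### The superpattern has no nilpotent realization -/

theorem no_solution (a b c d e f g h k m : ℝ) (ha : 0 < a) (hc : 0 < c)
    (hg : 0 < g) (hh : 0 < h) (hk : 0 < k) (hf : 0 < f) (hm : 0 < m)
    (e1 : a - e = 0) (e2 : b * d - a * e - c * m = 0)
    (e3 : g * (c * h - f * k) - m * (b * f - c * e) = 0)
    (e4 : b * f * h + c * d * k - a * f * k - c * e * h = 0) : False := by
  have hae : e = a := by linarith
  subst hae
  -- `δ = b f h - a c h`
  have h1 : g * (c * h - f * k) * h = m * (b * f * h - c * e * h) := by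
    have : g * (c * h - f * k) = m * (b * f - c * e) := by linarith
    rw [this]; ring
  set x := c * h with hx
  set y := f * k with hy
  have hxp : 0 < x := mul_pos hc hh
  have hyp : 0 < y := mul_pos hf hk
  set δ := b * f * h - e * x with hδ
  have h2 : g * h * (x - y) = m * δ := by
    rw [hδ, hx]
    rw [hx] at h1
    linarith
  have h3 : c * d * k = e * y - δ := by
    rw [hδ, hx, hy]; linarith
  have h4 : (b * f * h) * (c * d * k) = (b * d) * (x * y) := by rw [hx, hy]; ring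
  have h5 : b * d = e * e + c * m := by linarith
  have h6 : b * f * h = e * x + δ := by rw [hδ]; ring
  rw [h3, h5, h6] at h4
  have h7 : 0 ≤ δ * (x - y) := by
    have hgh : 0 < g * h := mul_pos hg hh
    have h8 : m * (δ * (x - y)) = g * h * (x - y) ^ 2 := by
      calc m * (δ * (x - y)) = (m * δ) * (x - y) := by ring
        _ = g * h * (x - y) ^ 2 := by rw [← h2]; ring
    have h9 : 0 ≤ m * (δ * (x - y)) := by rw [h8]; positivity
    exact (mul_nonneg_iff_of_pos_left hm).1 h9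
  have h10 : 0 < c * m * (x * y) := by positivity
  nlinarith [mul_nonneg ha.le h7, sq_nonneg δ]

theorem entry_of_sign {x : ℝ} : (SignType.sign x = 1 → 0 < x) ∧ (SignType.sign x = -1 → x < 0) ∧
    (SignType.sign x = 0 → x = 0) :=
  ⟨sign_eq_one_iff.1, sign_eq_neg_one_iff.1, sign_eq_zero_iff.1⟩

theorem S'_not_nilpotent (A : Matrix (Fin 6) (Fin 6) ℝ) (hA : Realizes A S') :
    A.charpoly ≠ X ^ 6 := by
  intro hcp
  let e : Fin 4 ⊕ Fin 2 ≃ Fin 6 := finSumFinEquiv
  have hB : Matrix.reindex e.symm e.symm A =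
      Matrix.fromBlocks (!![A 0 0, A 0 1, A 0 2, 0; A 1 0, A 1 1, A 1 2, 0; A 2 0, 0, 0, A 2 3;
        A 3 0, A 3 1, 0, 0]) 0 0 (!![A 4 4, A 4 5; A 5 4, A 5 5]) := by
    have z : ∀ i j, S' i j = 0 → A i j = 0 := fun i j h =>
      sign_eq_zero_iff.1 ((hA i j).trans h)
    ext i j
    rw [Matrix.reindex_apply, Matrix.submatrix_apply]
    rcases i with i | i <;> rcases j with j | j
    · rw [Matrix.fromBlocks_apply₁₁]
      fin_cases i <;> fin_cases j <;> first | rfl | exact z _ _ rfl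
    · rw [Matrix.fromBlocks_apply₁₂]
      fin_cases i <;> fin_cases j <;> exact z _ _ rfl
    · rw [Matrix.fromBlocks_apply₂₁]
      fin_cases i <;> fin_cases j <;> exact z _ _ rfl
    · rw [Matrix.fromBlocks_apply₂₂]
      fin_cases i <;> fin_cases j <;> rfl
  have h1 := congrArg Matrix.charpoly hB
  rw [Matrix.charpoly_reindex, hcp, Matrix.charpoly_fromBlocks_zero₁₂] at h1
  set P := (!![A 0 0, A 0 1, A 0 2, 0; A 1 0, A 1 1, A 1 2, 0; A 2 0, 0, 0, A 2 3;
        A 3 0, A 3 1, 0, 0] : Matrix (Fin 4) (Fin 4) ℝ) with hP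
  have hdvd : P.charpoly ∣ X ^ 6 := ⟨_, h1⟩
  obtain ⟨i, _, hi⟩ := (dvd_prime_pow Polynomial.prime_X 6).1 hdvd
  have hPi : P.charpoly = X ^ i :=
    eq_of_monic_of_associated P.charpoly_monic (monic_X_pow i) hi
  have hi4 : i = 4 := by
    have := congrArg natDegree hPi
    rw [Matrix.charpoly_natDegree_eq_dim, natDegree_X_pow, Fintype.card_fin] at this
    exact this.symm
  rw [hi4, hP, charpoly4] at hPi
  have c3 := congrArg (fun q : ℝ[X] => q.coeff 3) hPi
  have c2 := congrArg (fun q : ℝ[X] => q.coeff 2) hPi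
  have c1 := congrArg (fun q : ℝ[X] => q.coeff 1) hPi
  have c0 := congrArg (fun q : ℝ[X] => q.coeff 0) hPi
  simp only [coeff_add, coeff_sub, coeff_C_mul, coeff_X_pow, coeff_C, coeff_X] at c3 c2 c1 c0
  norm_num at c3 c2 c1 c0
  have p00 := sign_eq_one_iff.1 (hA 0 0)
  have p02 := sign_eq_neg_one_iff.1 (hA 0 2)
  have p12 := sign_eq_one_iff.1 (hA 1 2)
  have p20 := sign_eq_neg_one_iff.1 (hA 2 0)
  have p23 := sign_eq_neg_one_iff.1 (hA 2 3)
  have p30 := sign_eq_one_iff.1 (hA 3 0)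
  have p31 := sign_eq_one_iff.1 (hA 3 1)
  refine no_solution (A 0 0) (A 0 1) (-A 0 2) (-A 1 0) (-A 1 1) (A 1 2) (-A 2 3) (A 3 0) (A 3 1)
    (-A 2 0) p00 (by linarith) (by linarith) p30 p31 p12 (by linarith) ?_ ?_ ?_ ?_
  · linarith
  · linarith
  · linarith
  · rcases c0 with c0 | c0
    · linarith
    · linarith

theorem agree : ∀ i j, S i j = 0 ∨ S' i j = S i j := by decide

theorem isSuperpattern : IsSuperpattern S' S := fun i j h => (agree i j).resolve_left h

/-- There is a spectrally arbitrary sign pattern with a superpattern that is not spectrally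
arbitrary. -/
theorem result : ∃ (n : ℕ) (P Q : Matrix (Fin n) (Fin n) SignType),
    SpectrallyArbitrary P ∧ IsSuperpattern Q P ∧ ¬ SpectrallyArbitrary Q := by
  refine ⟨6, S, S', S_arbitrary, isSuperpattern, fun h => ?_⟩
  obtain ⟨A, hA, hc⟩ := h (X ^ 6) (monic_X_pow 6) (natDegree_X_pow 6)
  exact S'_not_nilpotent A hA hc

end Pool.Agent.Results.MP_557f7f_co.SpectralSuperpattern
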